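import Pool.Agent.Helper84.BA.Pt

/-!
# Project BA, module B6: calculus of `joinC`
-/

set_option autoImplicit false

namespace Pool.Agent.Helper94.BA

open Pool.Agent.Helper33.HM Filter

universe u

section

variable {B : Type u} [CompleteBooleanAlgebra B]

theorem h9_joinC_le {C D : Finset ℕ → B} {s : Finset ℕ} {b : B}
    (h : ∀ t ⊆ s, C t ⊓ D (s \ t) ≤ b) : joinC C D s ≤ b :=
  iSup₂_le fun t ht => h t ht

theorem h9_le_joinC (C D : Finset ℕ → B) {s t : Finset ℕ} (ht : t ⊆ s) :
    C t ⊓ D (s \ t) ≤ joinC C D s :=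
  le_iSup₂_of_le t ht le_rfl

theorem isCF_joinC {C D : Finset ℕ → B} (hC : IsCF C) (hD : IsCF D) : IsCF (joinC C D) := by
  constructor
  · refine top_le_iff.1 (le_trans ?_ (h9_le_joinC C D (Finset.Subset.refl ∅)))
    simp [hC.empty, hD.empty]
  · intro s t hst
    refine h9_joinC_le fun u hu => ?_
    have h1 : u ∩ s ⊆ s := Finset.inter_subset_right
    refine le_trans ?_ (h9_le_joinC C D h1)
    refine inf_le_inf (hC.anti _ _ Finset.inter_subset_left) (hD.anti _ _ ?_)
    intro n hn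
    simp only [Finset.mem_sdiff, Finset.mem_inter, not_and] at hn ⊢
    exact ⟨hst hn.1, fun h => hn.2 h hn.1⟩

theorem joinC_comm (C D : Finset ℕ → B) : joinC C D = joinC D C := by
  have h : ∀ C D : Finset ℕ → B, joinC C D ≤ joinC D C := by
    intro C D s
    refine h9_joinC_le fun t ht => ?_
    have h1 : s \ t ⊆ s := Finset.sdiff_subset
    refine le_trans ?_ (h9_le_joinC D C h1)
    rw [Finset.sdiff_sdiff_eq_self ht, inf_comm]
  exact le_antisymm (h C D) (h D C)

theorem joinC_mono {C C' D D' : Finset ℕ → B} (h : C ≤ C') (h' : D ≤ D') :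
    joinC C D ≤ joinC C' D' := by
  intro s
  refine h9_joinC_le fun t ht => ?_
  exact le_trans (inf_le_inf (h t) (h' (s \ t))) (h9_le_joinC C' D' ht)

theorem joinC_assoc (C D E : Finset ℕ → B) :
    joinC (joinC C D) E = joinC C (joinC D E) := by
  funext s
  refine eq_of_ae ?_
  filter_upwards [ae_joinC (joinC C D) E, ae_joinC C D, ae_joinC C (joinC D E), ae_joinC D E]
    with φ h1 h2 h3 h4
  rw [h1, h3]
  simp only [h2, h4]
  constructor
  · rintro ⟨t, ht, ⟨u, hu, hC, hD⟩, hE⟩
    refine ⟨u, hu.trans ht, hC, t \ u, Finset.sdiff_subset_sdiff ht (Finset.Subset.refl u), hD, ?_⟩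
    have e : (s \ u) \ (t \ u) = s \ t := by
      ext n
      simp only [Finset.mem_sdiff, not_and, not_not]
      constructor
      · rintro ⟨⟨a, b⟩, c⟩
        exact ⟨a, fun h => b (c h)⟩
      · rintro ⟨a, b⟩
        exact ⟨⟨a, fun h => b (hu h)⟩, fun h => absurd h b⟩
    rw [e]
    exact hE
  · rintro ⟨u, hu, hC, v, hv, hD, hE⟩
    have hdis : ∀ n, n ∈ v → n ∉ u := fun n hn => (Finset.mem_sdiff.1 (hv hn)).2
    refine ⟨u ∪ v, Finset.union_subset hu (hv.trans Finset.sdiff_subset),
      ⟨u, Finset.subset_union_left, hC, ?_⟩, ?_⟩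
    · have e : (u ∪ v) \ u = v := by
        ext n
        simp only [Finset.mem_sdiff, Finset.mem_union]
        constructor
        · rintro ⟨a | a, b⟩
          · exact absurd a b
          · exact a
        · exact fun h => ⟨Or.inr h, hdis n h⟩
      rw [e]
      exact hD
    · have e : s \ (u ∪ v) = (s \ u) \ v := by
        ext n
        simp only [Finset.mem_sdiff, Finset.mem_union, not_or]
        tauto
      rw [e]
      exact hE

theorem le_joinC_left (C : Finset ℕ → B) {D : Finset ℕ → B} (hD : IsCF D) : C ≤ joinC C D := by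
  intro s
  refine le_trans ?_ (h9_le_joinC C D (Finset.Subset.refl s))
  simp [hD.empty]

theorem le_joinC_right {C : Finset ℕ → B} (hC : IsCF C) (D : Finset ℕ → B) : D ≤ joinC C D := by
  intro s
  refine le_trans ?_ (h9_le_joinC C D (Finset.empty_subset s))
  simp [hC.empty]

theorem memC_joinC {C D : Finset ℕ → B} (hC : IsCF C) (hD : IsCF D) (x y : ℕ → B) :
    memC x C ⊓ memC y D ≤ memC (x ⊔ y) (joinC C D) := by
  classical
  refine le_of_ae ?_
  filter_upwards [ae_memC x C, ae_memC y D, ae_memC (x ⊔ y) (joinC C D), ae_joinC C D]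
    with φ h1 h2 h3 h4
  rw [Pt.inf, h1, h2, h3]
  rintro ⟨hx, hy⟩ s hs
  rw [h4]
  refine ⟨s.filter (fun n => φ (x n)), Finset.filter_subset _ _, hx _ ?_, hy _ ?_⟩
  · intro n hn
    exact (Finset.mem_filter.1 hn).2
  · intro n hn
    obtain ⟨hn1, hn2⟩ := Finset.mem_sdiff.1 hn
    have := hs n hn1
    rw [Pi.sup_apply, Pt.sup] at this
    exact this.resolve_left fun h => hn2 (Finset.mem_filter.2 ⟨hn1, h⟩)

/-- The union of a compact family with all subsets of `y`. -/
theorem memC_joinC_PC {C : Finset ℕ → B} (hC : IsCF C) (x y : ℕ → B) :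
    memC x (joinC C (PC y)) ≤ memC (x ⊓ yᶜ) C := by
  refine le_of_ae ?_
  filter_upwards [ae_memC x (joinC C (PC y)), ae_memC (x ⊓ yᶜ) C, ae_joinC C (PC y), ae_PC y]
    with φ h1 h2 h3 h4
  rw [h1, h2]
  intro h s hs
  have hs' : ∀ n ∈ s, φ (x n) ∧ ¬ φ (y n) := by
    intro n hn
    have := hs n hn
    rwa [Pi.inf_apply, Pt.inf, Pi.compl_apply, Pt.compl] at this
  obtain ⟨t, ht, hC', hy⟩ := (h3 s).1 (h s fun n hn => (hs' n hn).1)
  rw [h4] at hy
  have e : s \ t = ∅ := by
    rw [Finset.eq_empty_iff_forall_notMem]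
    intro n hn
    exact (hs' n (Finset.mem_sdiff.1 hn).1).2 (hy n hn)
  have e' : s = t := Finset.Subset.antisymm (Finset.sdiff_eq_empty_iff_subset.1 e) ht
  rw [e']
  exact hC'

theorem joinC_PC_self (y : ℕ → B) : joinC (PC y) (PC y) ≤ PC y := by
  intro s
  refine h9_joinC_le fun t ht => ?_
  unfold PC
  refine le_iInf₂ fun n hn => ?_
  by_cases h : n ∈ t
  · exact le_trans inf_le_left (iInf₂_le n h)
  · exact le_trans inf_le_right (iInf₂_le n (Finset.mem_sdiff.2 ⟨hn, h⟩))

end

end Pool.Agent.Helper94.BA
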