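import Pool.Agent.Helper9.BA.CalcC2
import Pool.Agent.Helper28.BA.JPcalc

/-!
# Project BA, module B21: extensions and unions of small ideals
-/

set_option autoImplicit false

namespace Pool.Agent.Helper94.BA

open Pool.Agent.Helper33.HM Filter

universe u v

section

variable {B : Type u} [CompleteBooleanAlgebra B]

private theorem h9_isCF_PC (y : ℕ → B) : IsCF (PC y) := by
  constructor
  · unfold PC
    simp
  · intro s t hst
    unfold PC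
    exact le_iInf₂ fun n hn => iInf₂_le n (hst hn)

private theorem h9_PC_mono {x y : ℕ → B} (h : x ≤ y) : PC x ≤ PC y := by
  intro s
  unfold PC
  exact iInf₂_mono fun n _ => h n

private theorem h9_finN_mono {m n : ℕ} (h : m ≤ n) : (finN m : ℕ → B) ≤ finN n := by
  intro k
  unfold finN
  by_cases hk : k < m
  · rw [if_pos hk, if_pos (lt_of_lt_of_le hk h)]
  · rw [if_neg hk]
    exact bot_le

private theorem h9_memC_finN (x : ℕ → B) (m : ℕ) : memC x (PC (finN m)) ≤ finV x := by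
  refine le_of_ae ?_
  filter_upwards [ae_memC x (PC (finN m)), ae_PC (finN m : ℕ → B), ae_finV x] with φ h1 h2 h3
  rw [h1, h3]
  intro h
  refine ⟨m, fun n hn hx => ?_⟩
  have h4 := h {n} (by simpa using hx)
  rw [h2] at h4
  have h5 := h4 n (by simp)
  rw [Pt.finN] at h5
  omega

variable {K K' : Set (Finset ℕ → B)} {A : (ℕ → B) → B}

/-- N14. -/
theorem add_set (hK : SmallIdeal K) (y : ℕ → B) (hy : JP K A yᶜ = ⊤) :
    ∃ K' : Set (Finset ℕ → B), SmallIdeal K' ∧ Ref K K' ∧ (∃ C ∈ K', PC y ≤ C) ∧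
      JP K' A ⊤ = ⊤ := by
  have hP : IsCF (PC y) := h9_isCF_PC y
  have := hK.small
  refine ⟨(fun C => joinC C (PC y)) '' K, ⟨inferInstance, ?_, ?_, ?_⟩, ?_, ?_, ?_⟩
  · rintro _ ⟨C, hC, rfl⟩
    exact isCF_joinC (hK.cf C hC) hP
  · intro m
    obtain ⟨C, hC, h⟩ := hK.fin m
    exact ⟨_, ⟨C, hC, rfl⟩, h.trans (le_joinC_left C hP)⟩
  · rintro _ ⟨C, hC, rfl⟩ _ ⟨D, hD, rfl⟩
    obtain ⟨E, hE, h⟩ := hK.dir C hC D hD
    refine ⟨_, ⟨E, hE, rfl⟩, ?_⟩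
    have h1 : joinC (joinC C (PC y)) (joinC D (PC y)) =
        joinC (joinC C D) (joinC (PC y) (PC y)) := by
      rw [joinC_assoc, joinC_assoc, ← joinC_assoc (PC y) D, joinC_comm (PC y) D, joinC_assoc]
    simp only
    rw [h1]
    exact joinC_mono h (joinC_PC_self y)
  · intro C hC
    exact ⟨_, ⟨C, hC, rfl⟩, le_joinC_left C hP⟩
  · obtain ⟨C, hC, _⟩ := hK.fin 0
    exact ⟨_, ⟨C, hC, rfl⟩, le_joinC_right (hK.cf C hC) (PC y)⟩
  · rw [← top_le_iff, h28_le_JP]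
    rintro _ ⟨C, hC, rfl⟩ l
    rw [top_inf_eq, top_inf_eq]
    have h1 := h28_JP_apply (A := A) hC l yᶜ
    rw [hy, top_inf_eq] at h1
    refine le_trans (inf_le_inf_left _ ?_) h1
    have h2 := memC_joinC_PC (hK.cf C hC) (usup l)ᶜ y
    rwa [inf_comm (usup l)ᶜ yᶜ] at h2

/-- N18c. The base ideal. -/
theorem base_ideal (hfin : ∀ l : List (ℕ → B), allV A l ⊓ finV (usup l)ᶜ = ⊥) :
    ∃ K : Set (Finset ℕ → B), SmallIdeal K ∧ JP K A ⊤ = ⊤ := by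
  refine ⟨Set.range fun m : ℕ => PC (finN m : ℕ → B), ⟨?_, ?_, ?_, ?_⟩, ?_⟩
  · exact small_range _
  · rintro _ ⟨m, rfl⟩
    exact h9_isCF_PC _
  · intro m
    exact ⟨_, ⟨m, rfl⟩, le_rfl⟩
  · rintro _ ⟨m, rfl⟩ _ ⟨n, rfl⟩
    refine ⟨_, ⟨max m n, rfl⟩, ?_⟩
    exact (joinC_mono (h9_PC_mono (h9_finN_mono (le_max_left m n)))
      (h9_PC_mono (h9_finN_mono (le_max_right m n)))).trans (joinC_PC_self _)
  · rw [← top_le_iff, h28_le_JP]
    rintro _ ⟨m, rfl⟩ l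
    rw [top_inf_eq, top_inf_eq]
    exact (inf_le_inf_left _ (h9_memC_finN _ m)).trans (hfin l).le

/-- N18d. Unions of chains. -/
theorem union_ideal {ι : Type v} [LinearOrder ι] [Nonempty ι] [Small.{0} ι]
    (f : ι → Set (Finset ℕ → B)) (hf : ∀ i, SmallIdeal (f i)) (hr : ∀ i j, i ≤ j → Ref (f i) (f j))
    (htop : ∀ i, JP (f i) A ⊤ = ⊤) :
    SmallIdeal (⋃ i, f i) ∧ JP (⋃ i, f i) A ⊤ = ⊤ ∧ ∀ i, Ref (f i) (⋃ i, f i) := by
  have hs : ∀ i, Small.{0} (f i) := fun i => (hf i).small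
  refine ⟨⟨inferInstance, ?_, ?_, ?_⟩, ?_, ?_⟩
  · intro C hC
    obtain ⟨i, hi⟩ := Set.mem_iUnion.1 hC
    exact (hf i).cf C hi
  · intro m
    obtain ⟨i⟩ := (inferInstance : Nonempty ι)
    obtain ⟨C, hC, h⟩ := (hf i).fin m
    exact ⟨C, Set.mem_iUnion.2 ⟨i, hC⟩, h⟩
  · intro C hC D hD
    obtain ⟨i, hi⟩ := Set.mem_iUnion.1 hC
    obtain ⟨j, hj⟩ := Set.mem_iUnion.1 hD
    obtain ⟨C', hC', h1⟩ := hr i (max i j) (le_max_left i j) C hi
    obtain ⟨D', hD', h2⟩ := hr j (max i j) (le_max_right i j) D hj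
    obtain ⟨E, hE, h3⟩ := (hf (max i j)).dir C' hC' D' hD'
    exact ⟨E, Set.mem_iUnion.2 ⟨_, hE⟩, (joinC_mono h1 h2).trans h3⟩
  · rw [← top_le_iff, h28_le_JP]
    intro C hC l
    obtain ⟨i, hi⟩ := Set.mem_iUnion.1 hC
    have h1 := h28_JP_apply (A := A) hi l ⊤
    rwa [htop i] at h1
  · intro i C hC
    exact ⟨C, Set.mem_iUnion.2 ⟨i, hC⟩, le_rfl⟩

/-- N18a. Properties of the small ideals. -/
theorem proper_of_mem (hK : SmallIdeal K) (htop : JP K A ⊤ = ⊤) {y : ℕ → B}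
    {C : Finset ℕ → B} (hC : C ∈ K) (hy : PC y ≤ C) (m : ℕ) :
    ⨆ n : ℕ, ⨆ _ : m ≤ n, (y n)ᶜ = ⊤ := by
  obtain ⟨D, hD, hD'⟩ := hK.fin m
  obtain ⟨E, hE, hE'⟩ := hK.dir C hC D hD
  have h1 : memC ⊤ E ⊓ JP K A ⊤ = ⊥ := JP_mem A hE ⊤
  rw [htop, inf_top_eq] at h1
  have h2 : joinC (PC y) (PC (finN m)) ≤ E := (joinC_mono hy hD').trans hE'
  refine eq_top_of_ae ?_
  filter_upwards [ae_iSup fun n : ℕ => ⨆ _ : m ≤ n, (y n)ᶜ, ae_memC ⊤ E,
    ae_joinC (PC y) (PC (finN m)), ae_PC y, ae_PC (finN m : ℕ → B)] with φ h3 h4 h5 h6 h7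
  rw [h3]
  by_contra hcon
  have h8 : ∀ n, m ≤ n → φ (y n) := by
    intro n hn
    by_contra h9
    exact hcon ⟨n, by simpa using ⟨hn, h9⟩⟩
  have h9 : ¬ φ (memC ⊤ E) := not_of_eq_bot h1 φ
  rw [h4] at h9
  refine h9 fun s _ => Pt.mono φ (h2 s) ?_
  rw [h5]
  refine ⟨s.filter (m ≤ ·), Finset.filter_subset _ _, ?_, ?_⟩
  · rw [h6]
    intro n hn
    exact h8 n (Finset.mem_filter.1 hn).2
  · rw [h7]
    intro n hn
    rw [Finset.mem_sdiff, Finset.mem_filter, not_and] at hn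
    rw [Pt.finN]
    exact not_le.1 (hn.2 hn.1)

end

end Pool.Agent.Helper94.BA
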