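import Pool.Agent.Helper94.BA.Sent

/-!
# Borel sets are projections of trees
-/

set_option autoImplicit false

namespace Pool.Agent.Helper94.BA

open Filter Topology

/-- The tree of the graph of a function `f`. -/
def h9_tree (f : (ℕ → ℕ) → ℕ → Bool) (t : List (Bool × ℕ)) : Prop :=
  ∃ z : ℕ → ℕ, ∀ (i : ℕ) (h : i < t.length), z i = (t[i]).2 ∧ f z i = (t[i]).1

theorem h9_tree_iff {f : (ℕ → ℕ) → ℕ → Bool} (hf : Continuous f) (a : ℕ → Prop) :
    (∃ w : ℕ → Prop, BrT (h9_tree f) a w) ↔ ∃ z : ℕ → ℕ, ∀ n, f z n = true ↔ a n := by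
  classical
  constructor
  · rintro ⟨w, hw1, hw2⟩
    choose z hz using hw1
    refine ⟨z, ?_⟩
    have h1 : ∀ n : ℕ, ∃ z' : ℕ → ℕ, ∀ i < n, z' i = z i ∧ f z' i = decide (a i) := by
      intro n
      have h2 := hw2 ((List.range n).map fun i => (decide (a i), z i)) (by
        intro i hi
        simp only [List.length_map, List.length_range] at hi
        simp [hz])
      obtain ⟨z', hz'⟩ := h2
      refine ⟨z', fun i hi => ?_⟩
      have h3 := hz' i (by simpa using hi)
      simpa using h3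
    choose Z hZ using h1
    have h4 : Tendsto Z atTop (𝓝 z) := by
      rw [tendsto_pi_nhds]
      intro i
      refine tendsto_const_nhds.congr' ?_
      filter_upwards [eventually_gt_atTop i] with n hn
      exact ((hZ n i hn).1).symm
    have h5 : Tendsto (fun n => f (Z n)) atTop (𝓝 (f z)) := (hf.tendsto z).comp h4
    have h6 : ∀ i, f z i = decide (a i) := by
      intro i
      have h7 := (tendsto_pi_nhds.1 h5) i
      refine tendsto_nhds_unique h7 ?_
      refine tendsto_const_nhds.congr' ?_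
      filter_upwards [eventually_gt_atTop i] with n hn
      exact ((hZ n i hn).2).symm
    intro n
    rw [h6 n]
    simp
  · rintro ⟨z, hz⟩
    refine ⟨fun n => (Nat.unpair n).2 = z (Nat.unpair n).1, fun i => ⟨z i, by simp⟩, ?_⟩
    intro t ht
    refine ⟨z, fun i hi => ?_⟩
    obtain ⟨h1, h2⟩ := ht i hi
    simp only [Nat.unpair_pair] at h2
    refine ⟨h2.symm, ?_⟩
    rw [Bool.eq_iff_iff, hz i, h1]

/-- Every Borel set is the projection of the closed set given by a tree. -/
theorem exists_tree_of_borel {A : Set (ℕ → Bool)}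
    (hA : @MeasurableSet (ℕ → Bool) (borel (ℕ → Bool)) A) :
    ∃ T : List (Bool × ℕ) → Prop, ∀ a : ℕ → Prop,
      (∃ w : ℕ → Prop, BrT T a w) ↔ ∃ x ∈ A, ∀ n, x n = true ↔ a n := by
  let _ : MeasurableSpace (ℕ → Bool) := borel (ℕ → Bool)
  have _ : BorelSpace (ℕ → Bool) := ⟨rfl⟩
  have h01 : TopologicalSpace.SeparableSpace (ℕ → Bool) := inferInstance
  have h02 : TopologicalSpace.IsCompletelyMetrizableSpace (ℕ → Bool) := inferInstance
  have h03 : PolishSpace (ℕ → Bool) :=
    @instPolishSpaceOfSeparableSpaceOfIsCompletelyMetrizableSpace _ _ h01 h02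
  have h1 : MeasureTheory.AnalyticSet A := hA.analyticSet
  rw [MeasureTheory.AnalyticSet] at h1
  rcases h1 with rfl | ⟨f, hf, rfl⟩
  · refine ⟨fun _ => False, fun a => ⟨?_, ?_⟩⟩
    · rintro ⟨w, _, hw⟩
      exact (hw [] (fun i hi => absurd hi (by simp))).elim
    · rintro ⟨x, hx, _⟩
      exact hx.elim
  · refine ⟨h9_tree f, fun a => ?_⟩
    rw [h9_tree_iff hf a]
    simp

end Pool.Agent.Helper94.BA
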